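import Pool.Agent.H69.KZ.Stm

namespace KZ

private theorem gen47b {a : ℤ → ℝ}
    (h : ∀ (p q : ℤ) (s : ℕ), p ≤ q → a (p - s) * a (q + s) ≤ a p * a q)
    (u v x y : ℤ) (hs : u + v = x + y) (hx : u ≤ x) (hy : u ≤ y) : a u * a v ≤ a x * a y := by
  rcases le_total x y with hxy | hxy
  · have h1 := h x y (x - u).toNat hxy
    have h2 : ((x - u).toNat : ℤ) = x - u := Int.toNat_of_nonneg (by omega)
    rw [h2] at h1
    have e1 : x - (x - u) = u := by ring
    have e2 : y + (x - u) = v := by omega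
    rwa [e1, e2] at h1
  · have h1 := h y x (y - u).toNat hxy
    have h2 : ((y - u).toNat : ℤ) = y - u := Int.toNat_of_nonneg (by omega)
    rw [h2] at h1
    have e1 : y - (y - u) = u := by ring
    have e2 : x + (y - u) = v := by omega
    rw [e1, e2] at h1
    linarith [mul_comm (a x) (a y)]

theorem MAI_proved (hBAS : S_BAS) (hTP2 : S_TP2) (hMON : S_MON) (hIDN : S_IDN) : S_MAI := by
  intro n k m hk hm hmk
  set a : ℤ → ℝ := c k n with ha
  set N : ℤ := (n : ℤ) * (k - 1) with hN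
  obtain ⟨hnn, -, -, hpos, hsym⟩ := hBAS k n (by omega)
  have G := gen47b (a := a) (hTP2 k n)
  have hk' : (2 : ℤ) ≤ k := by exact_mod_cast hk
  have hA : 0 < a m := by
    have := hpos m hm (by omega)
    exact lt_of_lt_of_le one_pos this
  -- the comparison
  have hs1 : a (N - m - k) = a (m + k) := by
    have := hsym (m + k)
    have e : (n : ℤ) * (k - 1) - (m + k) = N - m - k := by rw [hN]; ring
    rw [e] at this
    exact this
  have hmon : a (m + 1) ≤ a (m + k) := by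
    rw [← hs1]
    exact hMON k n (m + 1) (N - m - k) (by omega) (by omega) (by omega)
  have hmon0 : a m ≤ a (m + k) := (hMON k n m (m + 1) (by omega) (by omega) (by omega)).trans hmon
  have hcmp : ∀ j : ℤ, 0 ≤ j → a m ^ 2 * a (m + k - 1 - j) ≤ a (m + k) ^ 2 * a (m + j) := by
    intro j hj
    have e1 : a (m + k - 1 - j) = a (N - m - k + 1 + j) := by
      have := hsym (m + k - 1 - j)
      have e : (n : ℤ) * (k - 1) - (m + k - 1 - j) = N - m - k + 1 + j := by rw [hN]; ring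
      rw [e] at this
      exact this.symm
    have i1 : a m * a (N - m - k + 1 + j) ≤ a (N - m - k) * a (m + 1 + j) :=
      G _ _ _ _ (by ring) (by omega) (by omega)
    have i2 : a m * a (m + 1 + j) ≤ a (m + 1) * a (m + j) :=
      G _ _ _ _ (by ring) (by omega) (by omega)
    rw [hs1] at i1
    have p1 : 0 ≤ a (m + k) := hnn _
    have p2 : 0 ≤ a (m + j) := hnn _
    rw [e1]
    calc a m ^ 2 * a (N - m - k + 1 + j) = a m * (a m * a (N - m - k + 1 + j)) := by ring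
      _ ≤ a m * (a (m + k) * a (m + 1 + j)) := mul_le_mul_of_nonneg_left i1 hA.le
      _ = a (m + k) * (a m * a (m + 1 + j)) := by ring
      _ ≤ a (m + k) * (a (m + 1) * a (m + j)) := mul_le_mul_of_nonneg_left i2 p1
      _ ≤ a (m + k) * (a (m + k) * a (m + j)) :=
          mul_le_mul_of_nonneg_left (mul_le_mul_of_nonneg_right hmon p2) p1
      _ = a (m + k) ^ 2 * a (m + j) := by ring
  by_contra hcon
  rw [not_le] at hcon
  set ρ : ℝ := a (m + k) / a m with hρ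
  have hρ1 : 1 ≤ ρ := by rw [hρ, le_div_iff₀ hA]; linarith
  have hρB : a (m + k) = ρ * a m := by rw [hρ]; field_simp
  have hn1 : (0 : ℝ) < (n : ℝ) + 1 := by positivity
  have hkR : (2 : ℝ) ≤ k := by exact_mod_cast hk
  have hρ2 : ρ < 1 + 1 / ((n + 1) * k) := by
    rw [hρ, div_lt_iff₀ hA]
    linarith [hcon, mul_comm (a m) (1 + 1 / (((n : ℝ) + 1) * k))]
  have hcmp' : ∀ j : ℤ, 0 ≤ j → a (m + k - 1 - j) ≤ ρ ^ 2 * a (m + j) := by
    intro j hj
    have h1 := hcmp j hj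
    rw [hρB] at h1
    have h2 : a m ^ 2 * a (m + k - 1 - j) ≤ a m ^ 2 * (ρ ^ 2 * a (m + j)) := by
      calc _ ≤ _ := h1
        _ = _ := by ring
    exact le_of_mul_le_mul_left h2 (by positivity)
  set D : ℝ := ρ ^ 2 - 1 with hD
  have hD0 : 0 ≤ D := by rw [hD]; nlinarith
  set M : ℤ := m + k - 1 with hM
  -- weighted sums
  set S : ℝ := ∑ j ∈ Finset.range k, a (M - (j : ℤ)) with hS
  have hSdef : c k (n + 1) M = S := rfl
  have hid := hIDN k n M
  rw [hSdef] at hid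
  have hrefl : ∀ f : ℕ → ℝ, ∑ j ∈ Finset.range k, f (k - 1 - j) = ∑ j ∈ Finset.range k, f j :=
    fun f => Finset.sum_range_reflect f k
  have hYX : ∀ j ∈ Finset.range k, a (m + (j : ℤ)) = a (M - ((k - 1 - j : ℕ) : ℤ)) := by
    intro j hj
    have hj' := Finset.mem_range.1 hj
    congr 1
    rw [Nat.cast_sub (by omega), Nat.cast_sub (by omega), hM]
    push_cast
    ring
  have hSY : ∑ j ∈ Finset.range k, a (m + (j : ℤ)) = S := by
    rw [Finset.sum_congr rfl hYX]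
    exact hrefl (fun j => a (M - (j : ℤ)))
  set W : ℝ := ∑ j ∈ Finset.range k, (((k : ℝ) - 1) / 2 - j) * a (M - (j : ℤ)) with hW
  have hWY : ∑ j ∈ Finset.range k, (((k : ℝ) - 1) / 2 - j) * a (m + (j : ℤ)) = - W := by
    have : ∀ j ∈ Finset.range k, (((k : ℝ) - 1) / 2 - j) * a (m + (j : ℤ)) =
        -((((k : ℝ) - 1) / 2 - ((k - 1 - j : ℕ) : ℝ)) * a (M - ((k - 1 - j : ℕ) : ℤ))) := by
      intro j hj
      have hj' := Finset.mem_range.1 hj
      rw [hYX j hj]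
      rw [show (((k - 1 - j : ℕ) : ℝ)) = (k : ℝ) - 1 - j by
        rw [Nat.cast_sub (by omega), Nat.cast_sub (by omega)]; push_cast; ring]
      ring
    rw [Finset.sum_congr rfl this, Finset.sum_neg_distrib]
    rw [hrefl (fun j => (((k : ℝ) - 1) / 2 - (j : ℝ)) * a (M - (j : ℤ)))]
  have hterm : ∀ j ∈ Finset.range k,
      (((k : ℝ) - 1) / 2 - j) * (a (M - (j : ℤ)) - a (m + (j : ℤ))) ≤
        ((k : ℝ) - 1) / 2 * D * (a (M - (j : ℤ)) + a (m + (j : ℤ))) := by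
    intro j hj
    have hj' := Finset.mem_range.1 hj
    have hjR : (j : ℝ) ≤ (k : ℝ) - 1 := by
      have : (j : ℝ) + 1 ≤ k := by exact_mod_cast hj'
      linarith
    have hj0 : (0 : ℝ) ≤ j := Nat.cast_nonneg j
    have pX : 0 ≤ a (M - (j : ℤ)) := hnn _
    have pY : 0 ≤ a (m + (j : ℤ)) := hnn _
    have c1 : a (M - (j : ℤ)) ≤ ρ ^ 2 * a (m + (j : ℤ)) := hcmp' j (by omega)
    have c2 : a (m + (j : ℤ)) ≤ ρ ^ 2 * a (M - (j : ℤ)) := by
      have := hcmp' ((k : ℤ) - 1 - j) (by omega)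
      have e1 : m + k - 1 - ((k : ℤ) - 1 - j) = m + j := by ring
      have e2 : m + ((k : ℤ) - 1 - j) = M - j := by rw [hM]; ring
      rwa [e1, e2] at this
    have d1 : a (M - (j : ℤ)) - a (m + (j : ℤ)) ≤ D * (a (M - (j : ℤ)) + a (m + (j : ℤ))) := by
      rw [hD]; nlinarith [mul_nonneg hD0 pX]
    have d2 : a (m + (j : ℤ)) - a (M - (j : ℤ)) ≤ D * (a (M - (j : ℤ)) + a (m + (j : ℤ))) := by
      rw [hD]; nlinarith [mul_nonneg hD0 pY]
    have d3 : 0 ≤ D * (a (M - (j : ℤ)) + a (m + (j : ℤ))) := mul_nonneg hD0 (add_nonneg pX pY)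
    rcases le_total ((j : ℝ)) (((k : ℝ) - 1) / 2) with hw | hw
    · have w0 : 0 ≤ ((k : ℝ) - 1) / 2 - j := by linarith
      calc (((k : ℝ) - 1) / 2 - j) * (a (M - (j : ℤ)) - a (m + (j : ℤ)))
          ≤ (((k : ℝ) - 1) / 2 - j) * (D * (a (M - (j : ℤ)) + a (m + (j : ℤ)))) :=
            mul_le_mul_of_nonneg_left d1 w0
        _ ≤ ((k : ℝ) - 1) / 2 * (D * (a (M - (j : ℤ)) + a (m + (j : ℤ)))) :=
            mul_le_mul_of_nonneg_right (by linarith) d3
        _ = _ := by ring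
    · have w0 : 0 ≤ (j : ℝ) - ((k : ℝ) - 1) / 2 := by linarith
      calc (((k : ℝ) - 1) / 2 - j) * (a (M - (j : ℤ)) - a (m + (j : ℤ)))
          = ((j : ℝ) - ((k : ℝ) - 1) / 2) * (a (m + (j : ℤ)) - a (M - (j : ℤ))) := by ring
        _ ≤ ((j : ℝ) - ((k : ℝ) - 1) / 2) * (D * (a (M - (j : ℤ)) + a (m + (j : ℤ)))) :=
            mul_le_mul_of_nonneg_left d2 w0
        _ ≤ ((k : ℝ) - 1) / 2 * (D * (a (M - (j : ℤ)) + a (m + (j : ℤ)))) :=
            mul_le_mul_of_nonneg_right (by linarith) d3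
        _ = _ := by ring
  have hsum := Finset.sum_le_sum hterm
  have hL : ∑ j ∈ Finset.range k,
      (((k : ℝ) - 1) / 2 - j) * (a (M - (j : ℤ)) - a (m + (j : ℤ))) = 2 * W := by
    simp only [mul_sub]
    rw [Finset.sum_sub_distrib]
    rw [hWY, ← hW]
    ring
  have hR : ∑ j ∈ Finset.range k, ((k : ℝ) - 1) / 2 * D * (a (M - (j : ℤ)) + a (m + (j : ℤ))) =
      ((k : ℝ) - 1) * D * S := by
    rw [← Finset.mul_sum, Finset.sum_add_distrib, hSY, ← hS]
    ring
  rw [hL, hR] at hsum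
  have hWval : ((n : ℝ) + 1) * W = ((k : ℝ) - 1) / 2 * (n + 1) * S - (M : ℝ) * S := by
    have e : W = ((k : ℝ) - 1) / 2 * S - ∑ j ∈ Finset.range k, (j : ℝ) * a (M - (j : ℤ)) := by
      rw [hW, hS, Finset.mul_sum, ← Finset.sum_sub_distrib]
      exact Finset.sum_congr rfl fun j _ => by ring
    rw [e, hid]
    have : ∑ j ∈ Finset.range k, (j : ℝ) * c k n (M - (j : ℤ)) =
        ∑ j ∈ Finset.range k, (j : ℝ) * a (M - (j : ℤ)) := rfl
    rw [this]
    ring
  have hSpos : 0 < S := by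
    have : a m ≤ S := by
      rw [← hSY]
      have := Finset.single_le_sum (f := fun j : ℕ => a (m + (j : ℤ))) (s := Finset.range k)
        (fun j _ => hnn _) (Finset.mem_range.2 (show 0 < k by omega))
      simpa using this
    linarith
  have hMR : (M : ℝ) = m + k - 1 := by rw [hM]; push_cast; ring
  have hgap : (2 : ℝ) * m + k + 1 ≤ n * (k - 1) := by
    have : 2 * m + k + 1 ≤ (n : ℤ) * (k - 1) := by omega
    exact_mod_cast this
  have hfin : 2 * S ≤ ((k : ℝ) - 1) * ((n : ℝ) + 1) * D * S := by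
    have h1 : ((n : ℝ) + 1) * (2 * W) ≤ ((n : ℝ) + 1) * (((k : ℝ) - 1) * D * S) :=
      mul_le_mul_of_nonneg_left hsum hn1.le
    have h2 : ((n : ℝ) + 1) * (2 * W) = (((k : ℝ) - 1) * (n + 1) - 2 * M) * S := by
      calc ((n : ℝ) + 1) * (2 * W) = 2 * (((n : ℝ) + 1) * W) := by ring
        _ = _ := by rw [hWval]; ring
    have h3 : 2 * S ≤ (((k : ℝ) - 1) * (n + 1) - 2 * M) * S := by
      apply mul_le_mul_of_nonneg_right _ hSpos.le
      rw [hMR]; nlinarith
    calc 2 * S ≤ _ := h3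
      _ = ((n : ℝ) + 1) * (2 * W) := h2.symm
      _ ≤ _ := h1
      _ = _ := by ring
  have hfin2 : 2 ≤ ((k : ℝ) - 1) * ((n : ℝ) + 1) * D := le_of_mul_le_mul_right hfin hSpos
  -- contradiction
  set ε : ℝ := 1 / (((n : ℝ) + 1) * k) with hε
  have hε0 : 0 < ε := by rw [hε]; positivity
  have hεk : ((n : ℝ) + 1) * k * ε = 1 := by rw [hε]; field_simp
  have hDlt : D < 2 * ε + ε ^ 2 := by rw [hD]; nlinarith
  have hk1 : 0 < (k : ℝ) - 1 := by linarith
  have hkn : 0 < ((k : ℝ) - 1) * ((n : ℝ) + 1) := by positivity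
  have h5 : ((k : ℝ) - 1) * ((n : ℝ) + 1) * D < ((k : ℝ) - 1) * ((n : ℝ) + 1) * (2 * ε + ε ^ 2) :=
    mul_lt_mul_of_pos_left hDlt hkn
  have h6 : ((k : ℝ) - 1) * ((n : ℝ) + 1) * (2 * ε + ε ^ 2) =
      (((n : ℝ) + 1) * k * ε) * (2 + ε) - ((n : ℝ) + 1) * ε * (2 + ε) := by ring
  rw [hεk] at h6
  have h7 : ε ≤ ((n : ℝ) + 1) * ε * (2 + ε) := by nlinarith [mul_pos hε0 hε0, Nat.cast_nonneg (α := ℝ) n]
  linarith

end KZ
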