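import Pool.Agent.H69.KZ.Stm

namespace KZ

private theorem c_nonneg47 (r : ℕ) : ∀ (n : ℕ) (m : ℤ), 0 ≤ c r n m
  | 0, m => by
      unfold c
      split_ifs <;> norm_num
  | n + 1, m => by
      unfold c
      exact Finset.sum_nonneg fun j _ => c_nonneg47 r n _

private theorem gen47 {a : ℤ → ℝ}
    (h : ∀ (p q : ℤ) (s : ℕ), p ≤ q → a (p - s) * a (q + s) ≤ a p * a q)
    (u v x y : ℤ) (hs : u + v = x + y) (hx : u ≤ x) (hy : u ≤ y) : a u * a v ≤ a x * a y := by
  rcases le_total x y with hxy | hxy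
  · have h1 := h x y (x - u).toNat hxy
    have h2 : ((x - u).toNat : ℤ) = x - u := Int.toNat_of_nonneg (by omega)
    rw [h2] at h1
    have e1 : x - (x - u) = u := by ring
    have e2 : y + (x - u) = v := by omega
    rwa [e1, e2] at h1
  · have h1 := h y x (y - u).toNat hxy
    have h2 : ((y - u).toNat : ℤ) = y - u := Int.toNat_of_nonneg (by omega)
    rw [h2] at h1
    have e1 : y - (y - u) = u := by ring
    have e2 : x + (y - u) = v := by omega
    rw [e1, e2] at h1
    linarith [mul_comm (a x) (a y)]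

private theorem step47 {a : ℤ → ℝ} (R : ℕ)
    (h : ∀ (p q : ℤ) (s : ℕ), p ≤ q → a (p - s) * a (q + s) ≤ a p * a q)
    (p q : ℤ) (hpq : p ≤ q) :
    (∑ j ∈ Finset.range (R + 1), a (p - 1 - (j : ℤ))) *
      (∑ j ∈ Finset.range (R + 1), a (q + 1 - (j : ℤ))) ≤
    (∑ j ∈ Finset.range (R + 1), a (p - (j : ℤ))) *
      (∑ j ∈ Finset.range (R + 1), a (q - (j : ℤ))) := by
  have G := gen47 h
  have e1 : ∑ j ∈ Finset.range (R + 1), a (p - (j : ℤ)) =
      (∑ j ∈ Finset.range R, a (p - 1 - (j : ℤ))) + a p := by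
    rw [Finset.sum_range_succ']
    congr 1
    · exact Finset.sum_congr rfl fun j _ => by congr 1; push_cast; ring
    · simp
  have e2 : ∑ j ∈ Finset.range (R + 1), a (q + 1 - (j : ℤ)) =
      (∑ j ∈ Finset.range R, a (q - (j : ℤ))) + a (q + 1) := by
    rw [Finset.sum_range_succ']
    congr 1
    · exact Finset.sum_congr rfl fun j _ => by congr 1; push_cast; ring
    · simp
  have e3 : ∑ j ∈ Finset.range (R + 1), a (p - 1 - (j : ℤ)) =
      (∑ j ∈ Finset.range R, a (p - 1 - (j : ℤ))) + a (p - 1 - (R : ℤ)) :=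
    Finset.sum_range_succ _ _
  have e4 : ∑ j ∈ Finset.range (R + 1), a (q - (j : ℤ)) =
      (∑ j ∈ Finset.range R, a (q - (j : ℤ))) + a (q - (R : ℤ)) :=
    Finset.sum_range_succ _ _
  have i1 : (∑ j ∈ Finset.range R, a (p - 1 - (j : ℤ))) * a (q + 1) ≤
      a p * ∑ j ∈ Finset.range R, a (q - (j : ℤ)) := by
    rw [Finset.sum_mul, Finset.mul_sum]
    refine Finset.sum_le_sum fun j _ => G _ _ _ _ (by ring) (by omega) (by omega)
  have i2 : a (p - 1 - (R : ℤ)) * (∑ j ∈ Finset.range R, a (q - (j : ℤ))) ≤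
      (∑ j ∈ Finset.range R, a (p - 1 - (j : ℤ))) * a (q - (R : ℤ)) := by
    rw [Finset.sum_mul, Finset.mul_sum]
    refine Finset.sum_le_sum fun j hj => ?_
    have := Finset.mem_range.1 hj
    exact G _ _ _ _ (by ring) (by omega) (by omega)
  have i3 : a (p - 1 - (R : ℤ)) * a (q + 1) ≤ a p * a (q - (R : ℤ)) :=
    G _ _ _ _ (by ring) (by omega) (by omega)
  rw [e1, e2, e3, e4]
  nlinarith [i1, i2, i3]

theorem TP2_proved : S_TP2 := by
  intro r n
  induction n with
  | zero =>
      intro p q s hpq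
      have hq : c r 0 p * c r 0 q ≥ 0 := mul_nonneg (c_nonneg47 _ _ _) (c_nonneg47 _ _ _)
      rcases Nat.eq_zero_or_pos s with rfl | hs
      · simp
      · have : c r 0 (p - s) * c r 0 (q + s) = 0 := by
          by_cases h1 : p - (s : ℤ) = 0
          · have h2 : ¬ (q + (s : ℤ) = 0) := by omega
            simp [c, h2]
          · simp [c, h1]
        rw [this]
        exact hq
  | succ n ih =>
      rcases r with _ | R
      · intro p q s _
        simp [c]
      have key : ∀ p q : ℤ, p ≤ q →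
          c (R + 1) (n + 1) (p - 1) * c (R + 1) (n + 1) (q + 1) ≤
            c (R + 1) (n + 1) p * c (R + 1) (n + 1) q := by
        intro p q hpq
        exact step47 R (a := c (R + 1) n) ih p q hpq
      intro p q s hpq
      induction s with
      | zero => simp
      | succ s ihs =>
          have h1 := key (p - s) (q + s) (by omega)
          have e1 : p - ((s + 1 : ℕ) : ℤ) = p - (s : ℤ) - 1 := by push_cast; ring
          have e2 : q + ((s + 1 : ℕ) : ℤ) = q + (s : ℤ) + 1 := by push_cast; ring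
          rw [e1, e2]
          exact h1.trans ihs

end KZ
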